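import Mathlib

/-!
# Sections of fundamental groups of curves over varying fields
-/

set_option autoImplicit false

namespace Pool.Agent.Q173.SEC

universe u

/-- A smooth hyperbolic curve `U` over a field `k`: the absolute Galois group `G` of `k`, the
fundamental group `P` of `U` with its map to `G`, the set `X` of the closed points and cusps of the
universal pro-covering of `U`, on which `P` acts, and the absolute value `chi` of the Euler
characteristic of `U`. -/
structure Curve where
  /-- the absolute Galois group of the field of constants -/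
  G : Type u
  /-- the fundamental group -/
  P : Type u
  /-- the points and cusps of the universal pro-covering -/
  X : Type u
  [grpG : Group G]
  [topG : TopologicalSpace G]
  [grpP : Group P]
  [topP : TopologicalSpace P]
  [act : MulAction P X]
  /-- the map to the Galois group -/
  pr : P →* G
  /-- the absolute value `2 g - 2 + n` of the Euler characteristic -/
  chi : ℕ

attribute [instance] Curve.grpG Curve.topG Curve.grpP Curve.topP Curve.act

/-- The geometric fundamental group. -/
def Curve.geom (C : Curve.{u}) : Subgroup C.P := C.pr.ker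

/-- A section of `P → G`. -/
structure Sec (C : Curve.{u}) where
  /-- the homomorphism -/
  s : C.G →* C.P
  cont : Continuous s
  right : ∀ g, C.pr (s g) = g

/-- The section comes from a rational point or is cuspidal: its image lies in the decomposition
group of a point or of a cusp. -/
def FromPoint (C : Curve.{u}) (σ : Sec C) : Prop :=
  ∃ x : C.X, ∀ g, σ.s g ∈ MulAction.stabilizer C.P x

/-- Two sections are conjugate by an element of the geometric fundamental group. -/
def IsConj (C : Curve.{u}) (σ τ : Sec C) : Prop :=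
  ∃ d ∈ C.geom, ∀ g, d * σ.s g * d⁻¹ = τ.s g

/-- There are at least `n` conjugacy classes of sections which do not come from points or cusps. -/
def Exotic (C : Curve.{u}) (n : ℕ) : Prop :=
  ∃ f : Fin n → Sec C, (∀ i, ¬ FromPoint C (f i)) ∧ ∀ i j, i ≠ j → ¬ IsConj C (f i) (f j)

/-- The curve given by an open subgroup `H` of the fundamental group: a finite etale covering of the
curve, over the finite extension of `k` given by the image of `H`. -/
noncomputable def cover (C : Curve.{u}) (H : Subgroup C.P) : Curve.{u} where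
  G := H.map C.pr
  P := H
  X := C.X
  pr := (C.pr.comp H.subtype).codRestrict (H.map C.pr) fun x => ⟨x, x.2, rfl⟩
  chi := H.relIndex C.geom * C.chi

/-- The known properties of the class of all hyperbolic curves over number fields. -/
structure IsHyperbolicClass (K : Curve.{u} → Prop) : Prop where
  /-- fundamental groups are profinite -/
  profinite : ∀ C, K C → IsTopologicalGroup C.P ∧ CompactSpace C.P ∧ T2Space C.P ∧
    TotallyDisconnectedSpace C.P
  /-- Galois groups are profinite -/
  galois : ∀ C, K C → IsTopologicalGroup C.G ∧ CompactSpace C.G ∧ T2Space C.G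
  /-- the map to the Galois group is continuous -/
  continuous : ∀ C, K C → Continuous C.pr
  /-- the Euler characteristic is negative -/
  chi_pos : ∀ C, K C → 1 ≤ C.chi
  /-- the geometric fundamental group is infinite -/
  infinite : ∀ C, K C → Infinite C.geom
  /-- coverings and finite extensions of the field -/
  cover : ∀ C, K C → ∀ H : Subgroup C.P, IsOpen (H : Set C.P) → K (cover C H)
  /-- no element of the geometric fundamental group commutes with a section over a finite extension
  of the field -/
  centralizer : ∀ C, K C → ∀ σ : Sec C, ∀ N : Subgroup C.G, IsOpen (N : Set C.G) →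
    ∀ d ∈ C.geom, (∀ g ∈ N, d * σ.s g = σ.s g * d) → d = 1
  /-- different points or cusps give different sections over all finite extensions of the field -/
  separated : ∀ C, K C → ∀ σ : Sec C, ∀ N : Subgroup C.G, IsOpen (N : Set C.G) → ∀ x y : C.X,
    (∀ g ∈ N, σ.s g ∈ MulAction.stabilizer C.P x ∧ σ.s g ∈ MulAction.stabilizer C.P y) → x = y

/-- If a section comes from a point over a finite extension of the field, then it comes from a
point. -/
theorem descent {K : Curve.{u} → Prop} (hK : IsHyperbolicClass K) {C : Curve.{u}} (hC : K C)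
    {σ : Sec C} {x : C.X} {N : Subgroup C.G} (hN : IsOpen (N : Set C.G))
    (h : ∀ g ∈ N, σ.s g ∈ MulAction.stabilizer C.P x) : FromPoint C σ := by
  refine ⟨x, fun a => ?_⟩
  have := (hK.galois C hC).1
  have hM : IsOpen ((N ⊓ N.comap (MulAut.conj a⁻¹).toMonoidHom : Subgroup C.G) : Set C.G) := by
    refine hN.inter ?_
    have hc : Continuous fun g : C.G => (MulAut.conj a⁻¹) g := by
      simp only [MulAut.conj_apply]
      fun_prop
    exact hN.preimage hc
  have key := hK.separated C hC σ _ hM x (σ.s a • x) (by
    intro g hg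
    refine ⟨h g hg.1, ?_⟩
    have h1 : a⁻¹ * g * a ∈ N := by
      have := hg.2
      simpa using this
    have h2 := h _ h1
    rw [MulAction.mem_stabilizer_iff] at h2 ⊢
    rw [map_mul, map_mul, map_inv] at h2
    rw [smul_smul]
    have h3 : σ.s g * σ.s a = σ.s a * ((σ.s a)⁻¹ * σ.s g * σ.s a) := by simp [mul_assoc]
    rw [h3, mul_smul, h2])
  rw [MulAction.mem_stabilizer_iff]
  exact key.symm

/-- An infinite subgroup of a profinite group has large images in finite quotients. -/
theorem exists_open_normal {P : Type u} [Group P] [TopologicalSpace P] [IsTopologicalGroup P]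
    [CompactSpace P] [T2Space P] [TotallyDisconnectedSpace P] (D : Subgroup P) [Infinite D] (n : ℕ) :
    ∃ M : Subgroup P, M.Normal ∧ IsOpen (M : Set P) ∧ n ≤ M.relIndex D := by
  classical
  obtain ⟨f, hf⟩ : ∃ f : Fin n → D, Function.Injective f :=
    ⟨fun i => Infinite.natEmbedding D i, fun i j h =>
      Fin.val_injective ((Infinite.natEmbedding D).injective h)⟩
  -- an open normal subgroup which separates a pair
  have sep : ∀ x : P, x ≠ 1 → ∃ M : Subgroup P, M.Normal ∧ IsOpen (M : Set P) ∧ x ∉ M := by
    intro x hx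
    obtain ⟨H, hH⟩ := ProfiniteGrp.exist_openNormalSubgroup_sub_open_nhds_of_one (G := P)
      (isOpen_compl_singleton (x := x)) (by simpa using hx.symm)
    exact ⟨H.toSubgroup, H.isNormal', H.isOpen', fun h => hH h rfl⟩
  choose! M hM1 hM2 hM3 using sep
  let p : Finset (Fin n × Fin n) := Finset.univ.filter fun q => q.1 ≠ q.2
  let x : Fin n × Fin n → P := fun q => (f q.1 : P)⁻¹ * f q.2
  have hx : ∀ q ∈ p, x q ≠ 1 := by
    intro q hq h
    have h1 : q.1 ≠ q.2 := by simpa [p] using hq
    apply h1
    apply hf
    apply Subtype.ext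
    exact (inv_mul_eq_one.1 h)
  let N : Subgroup P := ⨅ q ∈ p, M (x q)
  have hN1 : N.Normal := by
    constructor
    intro a ha g
    rw [Subgroup.mem_iInf] at ha ⊢
    intro q
    have := ha q
    rw [Subgroup.mem_iInf] at this ⊢
    intro hq
    exact (hM1 _ (hx q hq)).conj_mem a (this hq) g
  have hN2 : IsOpen (N : Set P) := by
    have : (N : Set P) = ⋂ q ∈ p, (M (x q) : Set P) := by
      simp [N, Subgroup.coe_iInf]
    rw [this]
    exact isOpen_biInter_finset fun q hq => hM2 _ (hx q hq)
  refine ⟨N, hN1, hN2, ?_⟩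
  -- the `f i` are in different cosets
  have hfin : Finite (P ⧸ N) := Subgroup.quotient_finite_of_isOpen N hN2
  have hfi : (N.subgroupOf D).FiniteIndex := by
    have : N.FiniteIndex := Subgroup.finiteIndex_of_finite_quotient
    infer_instance
  have hfq : Finite (D ⧸ N.subgroupOf D) := Subgroup.finite_quotient_of_finiteIndex
  have h1 : Function.Injective (fun i : Fin n => (QuotientGroup.mk (f i) : D ⧸ N.subgroupOf D)) := by
    intro i j hij
    by_contra hne
    have h2 : (f i)⁻¹ * f j ∈ N.subgroupOf D := QuotientGroup.eq.1 hij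
    rw [Subgroup.mem_subgroupOf] at h2
    have h3 : ((f i : P))⁻¹ * f j ∈ N := by simpa using h2
    have h4 : (i, j) ∈ p := by simp [p, hne]
    have h5 : x (i, j) ∈ M (x (i, j)) := by
      have := (Subgroup.mem_iInf.1 h3) (i, j)
      exact (Subgroup.mem_iInf.1 this) h4
    exact hM3 _ (hx _ h4) h5
  have h2 := Nat.card_le_card_of_injective _ h1
  rw [Nat.card_eq_fintype_card, Fintype.card_fin] at h2
  exact h2

/-- **Amplification.** A section which does not come from a point gives as many sections of this kind,
for a covering (over an extension of the field), as the degree of the covering. -/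
theorem amplify {K : Curve.{u} → Prop} (hK : IsHyperbolicClass K) {C : Curve.{u}} (hC : K C)
    (σ : Sec C) (hσ : ¬ FromPoint C σ) (n : ℕ) :
    ∃ H : Subgroup C.P, IsOpen (H : Set C.P) ∧ n ≤ H.relIndex C.geom ∧
      Exotic (cover C H) (H.relIndex C.geom) := by
  classical
  obtain ⟨i1, i2, i3, i4⟩ := hK.profinite C hC
  obtain ⟨j1, j2, j3⟩ := hK.galois C hC
  have := hK.infinite C hC
  obtain ⟨M, hM1, hM2, hM3⟩ := exists_open_normal C.geom n
  -- the field of definition
  let G' : Subgroup C.G := M.comap σ.s
  have hG' : IsOpen (G' : Set C.G) := hM2.preimage σ.cont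
  let H : Subgroup C.P := M ⊓ G'.comap C.pr
  have hH : IsOpen (H : Set C.P) := hM2.inter (hG'.preimage (hK.continuous C hC))
  have hN : H.map C.pr = G' := by
    ext g
    constructor
    · rintro ⟨h, hh, rfl⟩
      exact hh.2
    · intro hg
      exact ⟨σ.s g, ⟨hg, by simpa [σ.right g] using hg⟩, σ.right g⟩
  have hinf : H ⊓ C.geom = M ⊓ C.geom := by
    ext d
    constructor
    · rintro ⟨h1, h2⟩
      exact ⟨h1.1, h2⟩
    · rintro ⟨h1, h2⟩
      have : C.pr d = 1 := h2
      have h3 : C.pr d ∈ G' := by rw [this]; exact G'.one_mem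
      exact ⟨⟨h1, h3⟩, h2⟩
  have hidx : H.relIndex C.geom = M.relIndex C.geom := by
    rw [← Subgroup.inf_relIndex_right H, hinf, Subgroup.inf_relIndex_right]
  refine ⟨H, hH, by rw [hidx]; exact hM3, ?_⟩
  rw [hidx]
  -- the conjugates of the section
  have hmem : ∀ d ∈ C.geom, ∀ g ∈ H.map C.pr, d * σ.s g * d⁻¹ ∈ H := by
    intro d hd g hg
    rw [hN] at hg
    have : C.pr d = 1 := hd
    have h3 : C.pr (d * σ.s g * d⁻¹) ∈ G' := by
      rw [map_mul, map_mul, map_inv, this, σ.right]
      simpa using hg
    exact ⟨hM1.conj_mem _ hg d, h3⟩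
  let S : C.geom → Sec (cover C H) := fun d =>
    { s :=
        { toFun := fun g => (⟨d * σ.s g.1 * (d : C.P)⁻¹, hmem d d.2 g.1 g.2⟩ : H)
          map_one' := by
            apply Subtype.ext
            change (d : C.P) * σ.s 1 * (d : C.P)⁻¹ = 1
            simp
          map_mul' := fun a b => by
            apply Subtype.ext
            change (d : C.P) * σ.s (a.1 * b.1) * (d : C.P)⁻¹ =
              (d * σ.s a.1 * (d : C.P)⁻¹) * (d * σ.s b.1 * (d : C.P)⁻¹)
            rw [map_mul]
            group }
      cont := by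
        refine Continuous.subtype_mk ?_ _
        exact (continuous_const.mul (σ.cont.comp continuous_subtype_val)).mul continuous_const
      right := fun g => by
        apply Subtype.ext
        change C.pr (d * σ.s g.1 * (d : C.P)⁻¹) = g.1
        have : C.pr d = 1 := d.2
        rw [map_mul, map_mul, map_inv, this, σ.right]
        simp }
  have hS : ∀ (d : C.geom) (g : (cover C H).G), ((S d).s g).1 = d * σ.s g.1 * (d : C.P)⁻¹ :=
    fun d g => rfl
  have hfin : Finite (C.P ⧸ M) := Subgroup.quotient_finite_of_isOpen M hM2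
  have hfi : (M.subgroupOf C.geom).FiniteIndex := by
    have : M.FiniteIndex := Subgroup.finiteIndex_of_finite_quotient
    infer_instance
  have hfq : Finite (C.geom ⧸ M.subgroupOf C.geom) := Subgroup.finite_quotient_of_finiteIndex
  let e : Fin (M.relIndex C.geom) ≃ C.geom ⧸ M.subgroupOf C.geom :=
    (Finite.equivFin (C.geom ⧸ M.subgroupOf C.geom)).symm
  refine ⟨fun i => S (e i).out, fun i hi => ?_, fun i j hij hc => ?_⟩
  · obtain ⟨x₀, hx⟩ := hi
    apply hσ
    set d := (e i).out with hd
    let x : C.X := x₀
    refine descent hK hC (N := G') (x := (d : C.P)⁻¹ • x) hG' fun g hg => ?_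
    have hg' : g ∈ H.map C.pr := by rw [hN]; exact hg
    have h1 := hx ⟨g, hg'⟩
    rw [MulAction.mem_stabilizer_iff] at h1 ⊢
    have h2 : ((d : C.P) * σ.s g * (d : C.P)⁻¹) • x = x := h1
    rw [smul_smul]
    have h3 : σ.s g * (d : C.P)⁻¹ = (d : C.P)⁻¹ * ((d : C.P) * σ.s g * (d : C.P)⁻¹) := by group
    rw [h3, mul_smul, h2]
  · obtain ⟨a₀, ha, hc⟩ := hc
    let a : H := a₀
    set d := (e i).out with hd
    set d' := (e j).out with hd'
    have ha1 : C.pr (a : C.P) = 1 := by
      have : (cover C H).pr a₀ = 1 := ha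
      exact congrArg Subtype.val this
    have hcomm : ∀ g ∈ G', ((d' : C.P)⁻¹ * a.1 * d) * σ.s g = σ.s g * ((d' : C.P)⁻¹ * a.1 * d) := by
      intro g hg
      have hg' : g ∈ H.map C.pr := by rw [hN]; exact hg
      have h1 := congrArg Subtype.val (hc ⟨g, hg'⟩)
      have h2 : (a.1 : C.P) * ((d : C.P) * σ.s g * (d : C.P)⁻¹) * (a.1 : C.P)⁻¹ =
        (d' : C.P) * σ.s g * (d' : C.P)⁻¹ := h1
      have h3 : (a.1 : C.P) * (d : C.P) * σ.s g = (d' : C.P) * σ.s g * (d' : C.P)⁻¹ * a.1 * d := by
        rw [← h2]; group
      have h4 : (d' : C.P)⁻¹ * ((a.1 : C.P) * (d : C.P) * σ.s g) =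
          (d' : C.P)⁻¹ * ((d' : C.P) * σ.s g * (d' : C.P)⁻¹ * a.1 * d) := by rw [h3]
      simpa [mul_assoc] using h4
    have hmem' : (d' : C.P)⁻¹ * a.1 * d ∈ C.geom := by
      change C.pr _ = 1
      have h1 : C.pr d = 1 := d.2
      have h2 : C.pr d' = 1 := d'.2
      rw [map_mul, map_mul, map_inv, h1, h2, ha1]
      simp
    have h1 := hK.centralizer C hC σ G' hG' _ hmem' hcomm
    have h2 : a.1 * (d : C.P) = d' := by
      rw [mul_assoc, inv_mul_eq_one] at h1
      exact h1.symm
    apply hij
    apply e.injective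
    have h3 : (QuotientGroup.mk d : C.geom ⧸ M.subgroupOf C.geom) = QuotientGroup.mk d' := by
      rw [QuotientGroup.eq, Subgroup.mem_subgroupOf]
      have h4 : (((d⁻¹ * d' : C.geom)) : C.P) = (d : C.P)⁻¹ * a.1 * ((d : C.P)⁻¹)⁻¹ := by
        rw [Subgroup.coe_mul, Subgroup.coe_inv, ← h2]
        group
      rw [h4]
      exact hM1.conj_mem _ a.2.1 _
    rw [hd, hd', QuotientGroup.out_eq', QuotientGroup.out_eq'] at h3
    exact h3

/-- **Main theorem.** -/
theorem main {K : Curve.{u} → Prop} (hK : IsHyperbolicClass K) :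
    (∀ C, K C → ∀ σ : Sec C, FromPoint C σ) ↔
      ∀ ε : ℝ, 0 < ε → ∃ B : ℕ, ∀ C, K C → B ≤ C.chi → ∀ n, Exotic C n → (n : ℝ) ≤ ε * C.chi := by
  constructor
  · intro h ε hε
    refine ⟨0, fun C hC _ n hn => ?_⟩
    obtain ⟨f, hf, -⟩ := hn
    rcases Nat.eq_zero_or_pos n with rfl | hn
    · simp only [Nat.cast_zero]; positivity
    · exact absurd (h C hC (f ⟨0, hn⟩)) (hf _)
  · intro h C hC σ
    by_contra hσ
    have hchi := hK.chi_pos C hC
    have hchi' : (0 : ℝ) < C.chi := by exact_mod_cast hchi
    obtain ⟨B, hB⟩ := h (1 / (2 * C.chi)) (by positivity)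
    obtain ⟨H, hH, h1, h2⟩ := amplify hK hC σ hσ (B + 1)
    have h3 : B ≤ (cover C H).chi := by
      change B ≤ H.relIndex C.geom * C.chi
      nlinarith
    have h4 := hB _ (hK.cover C hC H hH) h3 _ h2
    have h5 : ((cover C H).chi : ℝ) = (H.relIndex C.geom : ℝ) * C.chi := by
      change ((H.relIndex C.geom * C.chi : ℕ) : ℝ) = _
      push_cast; rfl
    rw [h5] at h4
    have h6 : 1 / (2 * (C.chi : ℝ)) * ((H.relIndex C.geom : ℝ) * C.chi) =
      (H.relIndex C.geom : ℝ) / 2 := by
      field_simp
    rw [h6] at h4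
    have h7 : (1 : ℝ) ≤ H.relIndex C.geom := by exact_mod_cast (by omega : 1 ≤ H.relIndex C.geom)
    linarith

end Pool.Agent.Q173.SEC
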